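import Pool.Agent.helper74.MQ.Spec

/-!
# Project mq: module LT (transport of strips between different cylinders)
-/

set_option autoImplicit false

open Complex Metric Set Filter Topology MeasureTheory MPS

noncomputable section

namespace MQ

theorem LT_mono {k : ℕ} [NeZero k] {b g : ZMod k → ℂ} {χ : ℂ → ℂ} {U V : Set ℂ}
    (h : IsNat b g χ V) (hUV : U ⊆ V) : IsNat b g χ U :=
  ⟨h.diff.mono hUV, fun w hw j => h.av w (hUV hw) j, fun w hw => h.eq w (hUV hw)⟩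

theorem LT_glue {k : ℕ} [NeZero k] {b g : ZMod k → ℂ} {χ f h : ℂ → ℂ} {U V : Set ℂ}
    (hU : IsOpen U) (hV : IsOpen V) (hf : IsNat b g f U) (hh : IsNat b g h V)
    (e1 : EqOn χ f U) (e2 : EqOn χ h V) : IsNat b g χ (U ∪ V) := by
  have key1 : ∀ w ∈ U, χ =ᶠ[𝓝 w] f := fun w hw =>
    Filter.eventuallyEq_of_mem (hU.mem_nhds hw) e1
  have key2 : ∀ w ∈ V, χ =ᶠ[𝓝 w] h := fun w hw =>
    Filter.eventuallyEq_of_mem (hV.mem_nhds hw) e2
  refine ⟨?_, ?_, ?_⟩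
  · intro w hw
    rcases hw with hw | hw
    · exact ((hf.diff.differentiableAt (hU.mem_nhds hw)).congr_of_eventuallyEq
        (key1 w hw)).differentiableWithinAt
    · exact ((hh.diff.differentiableAt (hV.mem_nhds hw)).congr_of_eventuallyEq
        (key2 w hw)).differentiableWithinAt
  · intro w hw j
    rcases hw with hw | hw
    · rw [e1 hw]
      exact hf.av w hw j
    · rw [e2 hw]
      exact hh.av w hw j
  · intro w hw
    rcases hw with hw | hw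
    · rw [(key1 w hw).deriv_eq, e1 hw]
      exact hf.eq w hw
    · rw [(key2 w hw).deriv_eq, e2 hw]
      exact hh.eq w hw

theorem LT_flat (hNH : NH_stmt) {k : ℕ} [NeZero k] {b g : ZMod k → ℂ} {i : ZMod k} {ψ ψ' : ℂ → ℂ}
    {S : ℂ} {y r₀ : ℝ} {χ₀ : ℂ → ℂ} (hP : PN b g i ψ 1)
    (h : IsStrip b g ψ ψ' S (y - r₀) (y + r₀) χ₀) :
    ∃ χ : ℂ → ℂ, IsNat b g χ (HP 0 ∪ ball ((y : ℂ) * I) r₀) ∧ EqOn χ (hat ψ) (HP 0) ∧
      ∀ w ∈ ball ((y : ℂ) * I) r₀, S.re < w.re → χ w = hat ψ' (S - w) := by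
  have hball : ∀ w ∈ ball ((y : ℂ) * I) r₀, y - r₀ < w.im ∧ w.im < y + r₀ := by
    intro w hw
    rw [mem_ball, dist_eq_norm] at hw
    have h1 : |(w - (y : ℂ) * I).im| ≤ ‖w - (y : ℂ) * I‖ := Complex.abs_im_le_norm _
    have h2 : (w - (y : ℂ) * I).im = w.im - y := by
      simp [Complex.sub_im, Complex.mul_im]
    rw [h2] at h1
    have h3 := abs_lt.mp (lt_of_le_of_lt h1 hw)
    constructor
    · linarith [h3.1]
    · linarith [h3.2]
  have e1 : EqOn (fun w : ℂ => if w.re < 0 then hat ψ w else χ₀ w) (hat ψ) (HP 0) := by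
    intro w hw
    have hw' : w.re < 0 := by
      have := hw
      simp only [HP, Set.mem_ofPred_eq, neg_zero] at this
      exact this
    simp only [hw', if_true]
  have e2 : EqOn (fun w : ℂ => if w.re < 0 then hat ψ w else χ₀ w) χ₀ (ball ((y : ℂ) * I) r₀) := by
    intro w hw
    by_cases hw' : w.re < 0
    · simp only [hw', if_true]
      exact (h.left w (hball w hw).1 (hball w hw).2 hw').symm
    · simp only [hw', if_false]
  refine ⟨fun w => if w.re < 0 then hat ψ w else χ₀ w, ?_, e1, ?_⟩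
  · have hN := (hNH k b g i ψ 1 hP).1
    rw [Real.log_one] at hN
    have hHP : (HP 0 : Set ℂ) = {w : ℂ | w.re < 0} := by
      simp only [HP, neg_zero]
    have hopen : IsOpen (HP 0 : Set ℂ) := by
      rw [hHP]
      exact isOpen_lt Complex.continuous_re continuous_const
    refine LT_glue hopen isOpen_ball ?_ ?_ e1 e2
    · rw [hHP]
      exact hN
    · exact LT_mono h.nat (fun w hw => hball w hw)
  · intro w hw hS
    rw [e2 hw]
    exact h.right w (hball w hw).1 (hball w hw).2 hS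

theorem LT_core (hSHF : SHF_stmt) (hTR : TR_stmt) (hNH : NH_stmt) (hINC : INC2_stmt)
    (hROT : ROTQ_stmt) (hCMP : CMP_stmt) (hP1A : P1A_stmt) (hP2A : P2A_stmt) (hPT1 : PT1_stmt)
    (hPT2 : PT2_stmt) (hGL : GL_stmt) (hRE0 : RE0_stmt)
    (n : ℕ) (ρ₁ δ η : ℝ) (hn : 2 ≤ n) (hρ : 0 < ρ₁) (hρ1 : 16 * ρ₁ ≤ 1) (hδ : 0 < δ)
    (hδη : δ ≤ η / 20) (hδρ : δ ≤ ρ₁ / 10 ^ 4)
    (k : ℕ) [NeZero k] (c : ℂ) (b g : ZMod k → ℂ) (ψ : ZMod k → ℂ → ℂ) (R ε : ℝ)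
    (hSU : SU n k c b g ψ R ε) (hF : Fam b g ψ) (hε1 : ε ≤ δ ^ 2 / 1024)
    (hε2 : ε ≤ ρ₁ * δ / 10 ^ 6)
    (hPHW : ∀ (y : ℝ) (χ : ℂ → ℂ),
      IsNat b g χ (HP 0 ∪ ball ((y : ℂ) * I) (16 * ρ₁)) → EqOn χ (hat (ψ 0)) (HP 0) →
      ∃ (ps : ℕ) (G1 : ℕ → ℂ → ℂ) (r : ℝ) (G : ℕ → ℂ → ℂ),
        H2 n k c b g ψ R ε y ρ₁ χ G1 ps (fun _ => r) G k)
    (hP1W : ∀ (b g : ZMod k → ℂ) (ψ : ZMod k → ℂ → ℂ), SU n k c b g ψ R ε →
      ∃ G : ℕ → ℂ → ℂ, ∀ Q ≤ k, H1 n k c b g ψ R ε δ (fun _ => 3 * δ) G Q)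
    (hKRE : ∀ (i : ZMod k) (q : ℕ), 1 ≤ q → q ≤ k → |Real.log ‖Kq n b ψ i q‖| ≤ 5 * δ)
    (l : ZMod k) (q : ℕ) (S : ℂ) (y : ℝ) (hl : (0 : ZMod k) ≠ l) (hq1 : 1 ≤ q) (hqk : q ≤ k)
    (hStrip : Strip b g (ψ 0) (ψ l) S (y - 16 * ρ₁) (y + 16 * ρ₁)) (hS : S.re ≤ 16 * ρ₁ / 1000) :
    ∃ κ κ' S' : ℂ, Complex.exp κ = Kq n b ψ 0 q ∧ Complex.exp κ' = Kq n b ψ l q ∧
      ‖S' - (S + κ + κ')‖ ≤ η ∧ |κ.re| ≤ η ∧ |κ'.re| ≤ η ∧
      Strip b g (ψ (-(q : ZMod k))) (ψ (l - (q : ZMod k))) S' (y + κ.im - 16 * ρ₁ / 200)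
        (y + κ.im + 16 * ρ₁ / 200) := by
  -- lower bound of `Re S`
  have hS0 : 0 ≤ S.re := hRE0 k b g ψ hF 0 l S (y - 16 * ρ₁) (y + 16 * ρ₁)
    (by linarith only [hρ]) hStrip
  obtain ⟨χ₀, hχ₀⟩ := hStrip
  obtain ⟨χ, hχn, hχe, hχr⟩ := LT_flat hNH (hF.mx 0).pn hχ₀
  obtain ⟨ps, G1, r, G, hH2⟩ := hPHW y χ hχn hχe
  obtain ⟨G', hG'⟩ := hP1W b g ψ hSU
  -- the shifted data
  obtain ⟨hSUl, -, -, -⟩ := hTR n k c b g ψ R ε l hSU
  obtain ⟨-, -, hKl, -, -, hLevl, -, hbetl⟩ := hSHF n k c b g ψ l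
  obtain ⟨Gh, hGh⟩ := hP1W _ _ _ hSUl
  have hδ1000 : δ ≤ ρ₁ / 1000 := by
    have : ρ₁ / 10 ^ 4 ≤ ρ₁ / 1000 := by
      apply div_le_div_of_nonneg_left hρ.le (by norm_num) (by norm_num)
    linarith only [this, hδρ]
  obtain ⟨κ, Φ, χ', hκ, hκre, hΦ, hχ'n, hχ'e, hΦb⟩ := hROT n k c b g ψ R ε y ρ₁ r δ χ G1 ps G G'
    hH2 hG' hδ1000 hε1 hε2 (fun q h1 h2 => hKRE 0 q h1 h2) q hq1 hqk
  obtain ⟨Φh, κ', -, hΦh1, hΦh2, hκ', -⟩ := hINC n k c _ _ _ R ε δ (fun _ => 3 * δ) Gh q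
    (hGh q hqk) hq1 hε1
  have hκ'2 : Complex.exp κ' = Kq n b ψ l q := by
    rw [hκ', hKl 0 q, add_zero]
  have hκ're : |κ'.re| ≤ 5 * δ := by
    have h1 := hKRE l q hq1 hqk
    rw [← hκ'2, Complex.norm_exp, Real.log_exp] at h1
    exact h1
  -- the point `w*`
  have hrlow : 3 * ρ₁ / 4 < r := hH2.sys.low k le_rfl
  have hws : ‖((y : ℂ) * I + (ρ₁ / 8 : ℝ)) - (y : ℂ) * I‖ = ρ₁ / 8 := by
    rw [add_sub_cancel_left, Complex.norm_real, Real.norm_eq_abs, abs_of_pos (by linarith only [hρ])]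
  have hwre : ((y : ℂ) * I + (ρ₁ / 8 : ℝ)).re = ρ₁ / 8 := by
    simp
  generalize hwdef : ((y : ℂ) * I + (ρ₁ / 8 : ℝ)) = ws at hws hwre
  have hSw : (S - ws).re ≤ -(ρ₁ / 10) := by
    rw [Complex.sub_re, hwre]
    linarith only [hS, hρ]
  have h4 : ρ₁ / 10 ^ 4 = ρ₁ * (1 / 10 ^ 4) := by ring
  have hδ4 : δ ≤ ρ₁ * (1 / 10 ^ 4) := by rw [← h4]; exact hδρ
  have hSw3 : (S - ws).re < -(3 * δ + δ / 4) := by
    norm_num at hδ4
    linarith only [hSw, hδ4, hρ]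
  have hSwHP : S - ws ∈ HP (3 * δ) := by
    show (S - ws).re < -(3 * δ)
    linarith only [hSw3, hδ]
  -- comparison
  have hρ2 : 0 < ρ₁ ^ 2 := by positivity
  have hερ : ε ≤ ρ₁ ^ 2 / 10 ^ 10 := by
    have h5 : ρ₁ * δ ≤ ρ₁ * (ρ₁ * (1 / 10 ^ 4)) := mul_le_mul_of_nonneg_left hδ4 hρ.le
    have h6 : ρ₁ * (ρ₁ * (1 / 10 ^ 4)) = ρ₁ ^ 2 / 10 ^ 4 := by ring
    rw [h6] at h5
    have h7 : ρ₁ * δ / 10 ^ 6 ≤ ρ₁ ^ 2 / 10 ^ 4 / 10 ^ 6 :=
      div_le_div_of_nonneg_right h5 (by norm_num)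
    have h8 : ρ₁ ^ 2 / 10 ^ 4 / 10 ^ 6 = ρ₁ ^ 2 / 10 ^ 10 := by ring
    rw [h8] at h7
    exact hε2.trans h7
  have hLev : LevSys n c b g G (ball ((y : ℂ) * I) r) k :=
    (hP2A n k c b g ψ R ε y ρ₁ χ G1 ps (fun _ => r) G k hH2).2.2.2.1 k le_rfl
  have hLev' : LevSys n c b g (GW Gh) (HP (3 * δ)) k :=
    (hLevl (GW Gh) (HP (3 * δ)) k).mp
      ((hP1A n k c _ _ _ R ε δ (fun _ => 3 * δ) Gh k (hGh k le_rfl)).2.2.2.1 k le_rfl)
  have hopen3 : IsOpen (HP (3 * δ) : Set ℂ) := isOpen_lt Complex.continuous_re continuous_const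
  have hev : ∀ᶠ w in 𝓝 ws, G 0 w = GW Gh 0 (S - w) := by
    have ho : IsOpen (ball ((y : ℂ) * I) (16 * ρ₁) ∩ {w : ℂ | S.re < w.re}) :=
      isOpen_ball.inter (isOpen_lt continuous_const Complex.continuous_re)
    have hm : ws ∈ ball ((y : ℂ) * I) (16 * ρ₁) ∩ {w : ℂ | S.re < w.re} := by
      refine ⟨?_, ?_⟩
      · rw [mem_ball, dist_eq_norm, hws]
        linarith only [hρ]
      · show S.re < ws.re
        rw [hwre]
        linarith only [hS, hρ]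
    filter_upwards [ho.mem_nhds hm] with w hw
    have hg0 : G 0 = χ := hH2.sys.g0
    have hg1 : Gh 0 = ψ (l + 0) := (hGh k le_rfl).sys.g0
    rw [hg0, hχr w hw.1 hw.2]
    show hat (ψ l) (S - w) = Gh 0 (Complex.exp (S - w))
    rw [hg1, add_zero]
    rfl
  have htau : ∀ q, 1 ≤ q → q ≤ k → ‖tau b g G q ws - 1‖ ≤ 1 / 4 := by
    intro p hp1 hpk
    have h1 := hPT2 n k c b g ψ R ε y ρ₁ χ G1 ps (fun _ => r) G k hH2 p hp1 hpk ws (ρ₁ / 2)
      (by linarith only [hρ]) (by rw [hws]; linarith only [hrlow, hρ])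
    refine (h1.2.trans h1.1).trans ?_
    rw [div_le_iff₀ (by positivity)]
    have h2 : (ρ₁ / 2) ^ 2 = ρ₁ ^ 2 / 4 := by ring
    rw [h2]
    norm_num at hερ ⊢
    linarith only [hερ, hρ2]
  have hbet : ∀ q, 1 ≤ q → q ≤ k → ∀ j ∈ Finset.Ico 1 n,
      ‖bet n b g (GW Gh) q j (S - ws)‖ ≤ 1 / 4 := by
    intro p hp1 hpk j hj
    have ht0 : 0 < -(S - ws).re - 3 * δ := by linarith only [hSw3, hδ]
    have ht16 : ρ₁ / 16 ≤ -(S - ws).re - 3 * δ := by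
      norm_num at hδ4
      linarith only [hSw, hδ4, hρ]
    have h1 := hPT1 n k c _ _ _ R ε δ (fun _ => 3 * δ) Gh k (hGh k le_rfl) p hp1 hpk (S - ws)
      (-(S - ws).re - 3 * δ) ht0 (by ring)
    have hle : ∑ q ∈ Finset.Icc 1 p, lev n c (fun j => b (l + j)) (fun j => g (l + j)) (GW Gh) q
        (S - ws) ≤ 1 / 4 := by
      rcases le_total (-(S - ws).re - 3 * δ) 1 with h | h
      · refine (h1.1 h).trans ?_
        rw [div_le_iff₀ (by positivity)]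
        have h3 : (ρ₁ / 16) ^ 2 ≤ (-(S - ws).re - 3 * δ) ^ 2 :=
          pow_le_pow_left₀ (by positivity) ht16 2
        have h5 : (ρ₁ / 16) ^ 2 = ρ₁ ^ 2 / 256 := by ring
        rw [h5] at h3
        norm_num at hερ
        linarith only [h3, hερ, hρ2]
      · refine (h1.2.1 h).trans ?_
        have h3 : Real.exp (1 - (-(S - ws).re - 3 * δ)) ≤ 1 := by
          rw [Real.exp_le_one_iff]
          linarith only [h]
        have h5 : 0 < Real.exp (1 - (-(S - ws).re - 3 * δ)) := Real.exp_pos _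
        have hε16 : 4 * ε ≤ 1 / 4 := by
          have h6 : ρ₁ ^ 2 ≤ 1 := by
            have : ρ₁ ≤ 1 := by linarith only [hρ1, hρ]
            exact pow_le_one₀ hρ.le this
          norm_num at hερ
          linarith only [hερ, h6]
        calc 4 * ε * Real.exp (1 - (-(S - ws).re - 3 * δ))
            ≤ 1 / 4 * Real.exp (1 - (-(S - ws).re - 3 * δ)) :=
              mul_le_mul_of_nonneg_right hε16 h5.le
          _ ≤ 1 / 4 * 1 := mul_le_mul_of_nonneg_left h3 (by norm_num)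
          _ = 1 / 4 := by norm_num
    have hlevnn : ∀ q, 0 ≤ lev n c (fun j => b (l + j)) (fun j => g (l + j)) (GW Gh) q
        (S - ws) := by
      intro q
      unfold lev
      exact add_nonneg (Finset.sum_nonneg (fun _ _ => norm_nonneg _)) (norm_nonneg _)
    have h6 : lev n c (fun j => b (l + j)) (fun j => g (l + j)) (GW Gh) p (S - ws) ≤
        ∑ q ∈ Finset.Icc 1 p, lev n c (fun j => b (l + j)) (fun j => g (l + j)) (GW Gh) q
          (S - ws) :=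
      Finset.single_le_sum (f := fun q => lev n c (fun j => b (l + j)) (fun j => g (l + j))
        (GW Gh) q (S - ws)) (fun q _ => hlevnn q) (Finset.mem_Icc.mpr ⟨hp1, le_rfl⟩)
    have h7 : ‖bet n (fun j => b (l + j)) (fun j => g (l + j)) (GW Gh) p j (S - ws)‖ ≤
        lev n c (fun j => b (l + j)) (fun j => g (l + j)) (GW Gh) p (S - ws) := by
      have h8 : ‖bet n (fun j => b (l + j)) (fun j => g (l + j)) (GW Gh) p j (S - ws)‖ ≤
          ∑ j ∈ Finset.Ico 1 n, ‖bet n (fun j => b (l + j)) (fun j => g (l + j)) (GW Gh) p j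
            (S - ws)‖ :=
        Finset.single_le_sum (f := fun j => ‖bet n (fun j => b (l + j)) (fun j => g (l + j))
          (GW Gh) p j (S - ws)‖) (fun _ _ => norm_nonneg _) hj
      unfold lev
      exact h8.trans (le_add_of_nonneg_right (norm_nonneg _))
    rw [← hbetl (GW Gh) p j (S - ws)]
    exact (h7.trans h6).trans hle
  have hcmp := hCMP n k c b g G (GW Gh) (ball ((y : ℂ) * I) r) (HP (3 * δ)) ws S k hn isOpen_ball
    hopen3 hLev hLev' (by rw [mem_ball, dist_eq_norm, hws]; linarith only [hrlow, hρ]) hSwHP hev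
    htau hbet q hqk
  have hGq : G q ws = GW Gh q (S - ws) := hcmp.self_of_nhds
  -- the two points
  have hws5 : ws ∈ ball ((y : ℂ) * I) (ρ₁ / 5) := by
    rw [mem_ball, dist_eq_norm, hws]
    linarith only [hρ]
  have hws2 : ws ∈ ball ((y : ℂ) * I) (ρ₁ / 2) := by
    rw [mem_ball, dist_eq_norm, hws]
    linarith only [hρ]
  have hv1 := hΦb ws hws5
  have hv2 := hΦ ws hws2
  have hv3 := hΦh2 (S - ws) hSw3
  have hv4 := (hΦh1 (S - ws) (by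
    show (S - ws).re < -(3 * δ + δ / 8)
    linarith only [hSw3, hδ])).1
  have hidx : l + -(q : ZMod k) = l - (q : ZMod k) := by ring
  have hv3' : hat (ψ (l - (q : ZMod k))) (Φh (S - ws)) = GW Gh q (S - ws) := by
    rw [← hidx]
    exact hv3.2
  have hchi : χ' (Φ ws) = hat (ψ (l - (q : ZMod k))) (Φh (S - ws)) := by
    rw [hv1.2, hGq, hv3']
  -- the sum
  have herr : ‖(Φ ws + Φh (S - ws)) - (S + κ + κ')‖ ≤ 2 * δ := by
    have h9 : (Φ ws + Φh (S - ws)) - (S + κ + κ') =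
        (Φ ws - ws - κ) + (Φh (S - ws) - (S - ws) - κ') := by ring
    rw [h9]
    refine (norm_add_le _ _).trans ?_
    linarith only [hv2, hv4, hδ]
  have hre : |(Φ ws + Φh (S - ws)).re - (S.re + κ.re + κ'.re)| ≤ 2 * δ := by
    have h10 := (Complex.abs_re_le_norm ((Φ ws + Φh (S - ws)) - (S + κ + κ'))).trans herr
    rwa [Complex.sub_re, Complex.add_re (S + κ) κ', Complex.add_re S κ] at h10
  have hsq : (16 * ρ₁ / 200) ^ 2 + (Φ ws + Φh (S - ws)).re ^ 2 < (ρ₁ / 4) ^ 2 := by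
    have h11 : |(Φ ws + Φh (S - ws)).re| ≤ ρ₁ / 50 := by
      rw [abs_le] at hre hκre hκ're ⊢
      norm_num at hδ4
      constructor
      · linarith only [hre.1, hκre.1, hκ're.1, hS0, hδ4, hρ, hδ]
      · linarith only [hre.2, hκre.2, hκ're.2, hS, hδ4, hρ, hδ]
    have h12 : (Φ ws + Φh (S - ws)).re ^ 2 ≤ (ρ₁ / 50) ^ 2 := by
      rw [← sq_abs]
      exact pow_le_pow_left₀ (abs_nonneg _) h11 2
    have h13 : (ρ₁ / 50) ^ 2 = ρ₁ ^ 2 / 2500 := by ring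
    have h14 : (16 * ρ₁ / 200) ^ 2 = ρ₁ ^ 2 * (256 / 40000) := by ring
    have h15 : (ρ₁ / 4) ^ 2 = ρ₁ ^ 2 / 16 := by ring
    rw [h14, h15]
    rw [h13] at h12
    linarith only [h12, hρ2]
  have hne : (-(q : ZMod k)) ≠ l - (q : ZMod k) := by
    intro h
    apply hl
    have h16 : (-(q : ZMod k)) + q = (l - (q : ZMod k)) + q := by rw [h]
    rw [neg_add_cancel, sub_add_cancel] at h16
    exact h16
  have hfin := hGL k b g ψ hF (-(q : ZMod k)) (l - (q : ZMod k)) χ' (y + κ.im) (ρ₁ / 4)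
    (16 * ρ₁ / 200) (Φ ws) (Φh (S - ws)) hne (by linarith only [hρ]) hχ'n hχ'e hv1.1 hv3.1 hchi hsq
  refine ⟨κ, κ', Φ ws + Φh (S - ws), hκ, hκ'2, ?_, ?_, ?_, hfin⟩
  · linarith only [herr, hδη, hδ]
  · linarith only [hκre, hδη, hδ]
  · linarith only [hκ're, hδη, hδ]

theorem LT (hSHF : SHF_stmt) (hTR : TR_stmt) (hNH : NH_stmt) (hP1W : P1W_stmt)
    (hPHW : PHW_stmt) (hKRE : KRE_stmt) (hINC : INC2_stmt)
    (hROT : ROTQ_stmt) (hCMP : CMP_stmt) (hP1A : P1A_stmt) (hP2A : P2A_stmt) (hPT1 : PT1_stmt)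
    (hPT2 : PT2_stmt) (hGL : GL_stmt) (hRE0 : RE0_stmt) : LT_stmt := by
  intro n r₀ η hn hr₀ hr₁ hη
  obtain ⟨ρ₁, hρdef⟩ : ∃ ρ₁ : ℝ, ρ₁ = r₀ / 16 := ⟨_, rfl⟩
  have hρ : 0 < ρ₁ := by rw [hρdef]; linarith only [hr₀]
  have hr : r₀ = 16 * ρ₁ := by rw [hρdef]; ring
  subst hr
  obtain ⟨δ, hδdef⟩ : ∃ δ : ℝ, δ = min (η / 20) (ρ₁ / 10 ^ 4) := ⟨_, rfl⟩
  have hδ : 0 < δ := by
    rw [hδdef]
    exact lt_min (by positivity) (by positivity)
  have hδη : δ ≤ η / 20 := by rw [hδdef]; exact min_le_left _ _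
  have hδρ : δ ≤ ρ₁ / 10 ^ 4 := by rw [hδdef]; exact min_le_right _ _
  have hδ20 : δ ≤ 1 / 20 := by
    norm_num at hδρ
    linarith only [hδρ, hr₁, hρ]
  obtain ⟨R₁, hR₁, ε₁, hε₁, H1'⟩ := hPHW n ρ₁ hn hρ hr₁
  obtain ⟨R₂, hR₂, ε₂, hε₂, H2'⟩ := hP1W n δ hn hδ hδ20
  obtain ⟨R₃, hR₃, ε₃, hε₃, H3'⟩ := hKRE n δ hn hδ hδ20
  refine ⟨max R₁ (max R₂ R₃), le_max_of_le_left hR₁,
    min (min ε₁ (min ε₂ ε₃)) (min (δ ^ 2 / 1024) (ρ₁ * δ / 10 ^ 6)), ?_, ?_⟩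
  · exact lt_min (lt_min hε₁ (lt_min hε₂ hε₃)) (lt_min (by positivity) (by positivity))
  intro k _ c b g ψ R ε hSU hF hR hε i l q S y hil hq1 hqk hStrip hS
  have hR1 : R₁ ≤ R := (le_max_left _ _).trans hR
  have hR2 : R₂ ≤ R := ((le_max_left _ _).trans (le_max_right _ _)).trans hR
  have hR3 : R₃ ≤ R := ((le_max_right _ _).trans (le_max_right _ _)).trans hR
  have hE1 : ε ≤ ε₁ := (hε.trans (min_le_left _ _)).trans (min_le_left _ _)
  have hE2 : ε ≤ ε₂ := ((hε.trans (min_le_left _ _)).trans (min_le_right _ _)).trans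
    (min_le_left _ _)
  have hE3 : ε ≤ ε₃ := ((hε.trans (min_le_left _ _)).trans (min_le_right _ _)).trans
    (min_le_right _ _)
  have hE4 : ε ≤ δ ^ 2 / 1024 := (hε.trans (min_le_right _ _)).trans (min_le_left _ _)
  have hE5 : ε ≤ ρ₁ * δ / 10 ^ 6 := (hε.trans (min_le_right _ _)).trans (min_le_right _ _)
  obtain ⟨hSUi, -, -, -⟩ := hTR n k c b g ψ R ε i hSU
  obtain ⟨hFi, -, hKi, -, hSi, -, -, -⟩ := hSHF n k c b g ψ i
  have hli : i + (l - i) = l := by ring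
  have hi0 : i + 0 = i := add_zero i
  have hne : (0 : ZMod k) ≠ l - i := by
    intro h
    apply hil
    exact (sub_eq_zero.mp h.symm).symm
  have hStrip' : Strip (fun j => b (i + j)) (fun j => g (i + j)) (ψ (i + 0)) (ψ (i + (l - i))) S
      (y - 16 * ρ₁) (y + 16 * ρ₁) := by
    rw [hli, hi0]
    exact (hSi _ _ _ _ _).mpr hStrip
  obtain ⟨κ, κ', S', h1, h2, h3, h4, h5, h6⟩ := LT_core hSHF hTR hNH hINC hROT hCMP hP1A hP2A hPT1
    hPT2 hGL hRE0 n ρ₁ δ η hn hρ hr₁ hδ hδη hδρ k c (fun j => b (i + j)) (fun j => g (i + j))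
    (fun j => ψ (i + j)) R ε hSUi (hFi hF) hE4 hE5
    (fun y χ h1 h2 => H1' k c _ _ _ R ε hSUi hR1 hE1 y χ h1 h2)
    (fun b g ψ h => H2' k c b g ψ R ε h hR2 hE2)
    (fun i' q h1 h2 => H3' k c _ _ _ R ε hSUi hR3 hE3 i' q h1 h2)
    (l - i) q S y hne hq1 hqk hStrip' hS
  refine ⟨κ, κ', S', ?_, ?_, h3, h4, h5, ?_⟩
  · rw [h1, hKi 0 q, add_zero]
  · rw [h2, hKi (l - i) q, hli]
  · have h7 := (hSi _ _ _ _ _).mp h6
    have h8 : i + -(q : ZMod k) = i - (q : ZMod k) := by ring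
    have h9 : i + (l - i - (q : ZMod k)) = l - (q : ZMod k) := by ring
    rw [h8, h9] at h7
    exact h7

end MQ
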